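import Mathlib
import Pool.Agent.Q65.ERe

/-! The length measure on the boundary of a square (more generally, of any parallelogram) admits
an exponential Riesz basis. -/

set_option autoImplicit false

open MeasureTheory Set
open scoped Real ComplexConjugate

namespace Pool.Agent.Results.MP_9e9244_an.SquareBoundary

/-- the Euclidean plane -/
abbrev E2 := EuclideanSpace ℝ (Fin 2)

/-- `e_λ(x) = exp(2 π i ⟨λ, x⟩)` -/
noncomputable def ex (l x : E2) : ℂ := Complex.exp (2 * π * Complex.I * (inner ℝ l x : ℝ))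

lemma ex_eq (l x : E2) : ex l x = Q65.ER.ex l x := rfl

lemma memLp_ex (μ : Measure E2) [IsFiniteMeasure μ] (l : E2) : MemLp (ex l) 2 μ := by
  refine MemLp.of_bound (Q65.ER.continuous_ex l).aestronglyMeasurable 1 ?_
  filter_upwards with x
  exact (Q65.ER.norm_ex l x).le

/-- the finite linear combination `∑ c_λ e_λ` -/
noncomputable def comb (s : Finset E2) (c : E2 → ℂ) (x : E2) : ℂ := ∑ l ∈ s, c l * ex l x

/-- the square of the norm of `L²(μ)` -/
noncomputable def sqNorm (μ : Measure E2) (f : E2 → ℂ) : ℝ := ∫ x, ‖f x‖ ^ 2 ∂μ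

/-- the linear span of `E(Λ)` is dense in `L²(μ)` -/
def DenseSpan (μ : Measure E2) (Lam : Set E2) : Prop :=
  ∀ f : E2 → ℂ, MemLp f 2 μ → ∀ ε : ℝ, 0 < ε → ∃ (s : Finset E2) (c : E2 → ℂ),
    (s : Set E2) ⊆ Lam ∧ sqNorm μ (fun x => f x - comb s c x) < ε

/-- the two-sided Riesz inequality for finitely supported coefficients -/
def RieszIneq (μ : Measure E2) (Lam : Set E2) : Prop :=
  ∃ A B : ℝ, 0 < A ∧ A ≤ B ∧ ∀ (s : Finset E2) (c : E2 → ℂ), (s : Set E2) ⊆ Lam →
    A * ∑ l ∈ s, ‖c l‖ ^ 2 ≤ sqNorm μ (comb s c) ∧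
    sqNorm μ (comb s c) ≤ B * ∑ l ∈ s, ‖c l‖ ^ 2

/-- `E(Λ)` is an exponential Riesz basis of `L²(μ)` -/
def IsExpRieszBasis (μ : Measure E2) (Lam : Set E2) : Prop :=
  DenseSpan μ Lam ∧ RieszIneq μ Lam

/-- the measure is finite and some countable `Λ` gives an exponential Riesz basis -/
def AdmitsExpRieszBasis (μ : Measure E2) : Prop :=
  IsFiniteMeasure μ ∧ ∃ Lam : Set E2, Lam.Countable ∧ IsExpRieszBasis μ Lam

/-- the solid parallelogram with vertices `P, P+u, P+v, P+u+v` -/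
def pgram (P u v : E2) : Set E2 :=
  {x | ∃ s ∈ Icc (0:ℝ) 1, ∃ t ∈ Icc (0:ℝ) 1, x = P + s • u + t • v}

/-- `σ_S`: the one-dimensional Hausdorff measure restricted to the boundary of `S` -/
noncomputable def sigma (S : Set E2) : Measure E2 := (μH[1] : Measure E2).restrict (frontier S)

/-- `e_λ` as an element of `L²(μ)` -/
noncomputable def eL (μ : Measure E2) [IsFiniteMeasure μ] (l : E2) : Lp ℂ 2 μ :=
  (memLp_ex μ l).toLp (ex l)

lemma sum_toLp (μ : Measure E2) [IsFiniteMeasure μ] (s : Finset E2) (c : E2 → ℂ) :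
    (fun x => (∑ l ∈ s, c l • eL μ l : Lp ℂ 2 μ) x) =ᵐ[μ] comb s c := by
  classical
  unfold comb
  induction s using Finset.induction_on with
  | empty =>
    simp only [Finset.sum_empty]
    exact Lp.coeFn_zero ℂ 2 μ
  | insert a s ha ih =>
    simp only [Finset.sum_insert ha]
    filter_upwards [ih, Lp.coeFn_add (c a • eL μ a) (∑ l ∈ s, c l • eL μ l),
      Lp.coeFn_smul (c a) (eL μ a), (memLp_ex μ a).coeFn_toLp] with x h1 h2 h3 h4
    rw [h2, Pi.add_apply, h3, Pi.smul_apply, smul_eq_mul, h1]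
    congr 2

lemma norm_sq_eq (μ : Measure E2) [IsFiniteMeasure μ] (F : Lp ℂ 2 μ) :
    ‖F‖ ^ 2 = ∫ x, ‖F x‖ ^ 2 ∂μ := by
  have h1 : ((‖F‖ ^ 2 : ℝ) : ℂ) = ((∫ x, ‖F x‖ ^ 2 ∂μ : ℝ) : ℂ) := by
    have h0 : ((∫ x, ‖F x‖ ^ 2 ∂μ : ℝ) : ℂ) = ∫ x, ((‖F x‖ ^ 2 : ℝ) : ℂ) ∂μ :=
      (integral_ofReal (𝕜 := ℂ)).symm
    rw [h0, Complex.ofReal_pow]
    have h2 : inner ℂ F F = ((‖F‖ : ℝ) : ℂ) ^ 2 := inner_self_eq_norm_sq_to_K F
    rw [← h2, L2.inner_def]
    refine integral_congr_ae ?_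
    filter_upwards with x
    have h3 : inner ℂ (F x) (F x) = ((‖F x‖ : ℝ) : ℂ) ^ 2 := inner_self_eq_norm_sq_to_K (F x)
    rw [h3, Complex.ofReal_pow]
  exact_mod_cast h1

lemma dense_of_complete (μ : Measure E2) [IsFiniteMeasure μ] (Lam : Set E2)
    (H : ∀ h : E2 → ℂ, MemLp h 2 μ → (∀ l ∈ Lam, ∫ x, conj (ex l x) * h x ∂μ = 0) →
      h =ᵐ[μ] 0) : DenseSpan μ Lam := by
  classical
  have hd : (Submodule.span ℂ (eL μ '' Lam)).topologicalClosure = ⊤ := by
    rw [Submodule.topologicalClosure_eq_top_iff, Submodule.eq_bot_iff]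
    intro h hh
    rw [Submodule.mem_orthogonal] at hh
    have hmem : MemLp (fun x => h x) 2 μ := Lp.memLp h
    have h0 := H _ hmem (by
      intro l hl
      have h1 := hh (eL μ l) (Submodule.subset_span ⟨l, hl, rfl⟩)
      rw [L2.inner_def] at h1
      rw [← h1]
      refine integral_congr_ae ?_
      filter_upwards [(memLp_ex μ l).coeFn_toLp] with x hx
      have : (eL μ l) x = ex l x := hx
      rw [this, RCLike.inner_apply, mul_comm])
    exact (Lp.eq_zero_iff_ae_eq_zero).mpr h0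
  intro f hf ε hε
  have h1 : hf.toLp f ∈ closure (Submodule.span ℂ (eL μ '' Lam) : Set (Lp ℂ 2 μ)) := by
    rw [← Submodule.topologicalClosure_coe, hd]; exact mem_univ _
  obtain ⟨g, hg, hdist⟩ := Metric.mem_closure_iff.mp h1 (√ε) (Real.sqrt_pos.mpr hε)
  rw [SetLike.mem_coe, Finsupp.mem_span_image_iff_linearCombination] at hg
  obtain ⟨c, hc, hcg⟩ := hg
  have hcg' : ∑ l ∈ c.support, c l • eL μ l = g := hcg
  refine ⟨c.support, c, hc, ?_⟩
  have h2 : sqNorm μ (fun x => f x - comb c.support c x) = ‖hf.toLp f - g‖ ^ 2 := by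
    rw [norm_sq_eq]
    unfold sqNorm
    refine integral_congr_ae ?_
    filter_upwards [hf.coeFn_toLp, sum_toLp μ c.support c, Lp.coeFn_sub (hf.toLp f) g]
      with x h3 h4 h5
    rw [h5, Pi.sub_apply, h3, ← hcg', h4]
  rw [h2, ← dist_eq_norm]
  calc dist (hf.toLp f) g ^ 2 < (√ε) ^ 2 := pow_lt_pow_left₀ hdist dist_nonneg two_ne_zero
    _ = ε := Real.sq_sqrt hε.le

lemma k_inj {i i' : Fin 4 × ℤ} (h1 : Q65.ER.k1 i = Q65.ER.k1 i')
    (h2 : Q65.ER.k2 i = Q65.ER.k2 i') : i = i' := by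
  obtain ⟨j, n⟩ := i
  obtain ⟨j', n'⟩ := i'
  have e1 : ∀ (j : Fin 4) (n : ℤ), 2 * Q65.ER.k1 (j, n) =
      ((![2 * n, 2 * n, 2 * n + 1, 2 * n + 1] j : ℤ) : ℝ) := by
    intro j n
    fin_cases j <;> simp [Q65.ER.k1] <;> ring
  have e2 : ∀ (j : Fin 4) (n : ℤ), 2 * Q65.ER.k2 (j, n) =
      ((![2 * n, 2 * n + 1, -(2 * n) - 1, -(2 * n)] j : ℤ) : ℝ) := by
    intro j n
    fin_cases j <;> simp [Q65.ER.k2] <;> ring
  have f1 : (![2 * n, 2 * n, 2 * n + 1, 2 * n + 1] j : ℤ) =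
      ![2 * n', 2 * n', 2 * n' + 1, 2 * n' + 1] j' := by
    have : ((![2 * n, 2 * n, 2 * n + 1, 2 * n + 1] j : ℤ) : ℝ) =
      ((![2 * n', 2 * n', 2 * n' + 1, 2 * n' + 1] j' : ℤ) : ℝ) := by
      rw [← e1, ← e1, h1]
    exact_mod_cast this
  have f2 : (![2 * n, 2 * n + 1, -(2 * n) - 1, -(2 * n)] j : ℤ) =
      ![2 * n', 2 * n' + 1, -(2 * n') - 1, -(2 * n')] j' := by
    have : ((![2 * n, 2 * n + 1, -(2 * n) - 1, -(2 * n)] j : ℤ) : ℝ) =
      ((![2 * n', 2 * n' + 1, -(2 * n') - 1, -(2 * n')] j' : ℤ) : ℝ) := by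
      rw [← e2, ← e2, h2]
    exact_mod_cast this
  fin_cases j <;> fin_cases j' <;> simp at f1 f2 <;> first | omega | (simp; omega)

lemma exists_freq {u v : E2} (huv : LinearIndependent ℝ ![u, v]) :
    ∃ L : Fin 4 × ℤ → E2, (∀ i, inner ℝ (L i) u = Q65.ER.k1 i) ∧
      (∀ i, inner ℝ (L i) v = Q65.ER.k2 i) := by
  obtain ⟨A, hA⟩ := Q65.ER.linMap_exists huv
  set T : E2 →ₗ[ℝ] ℝ × ℝ := (innerₗ E2 u).prod (innerₗ E2 v) with hT
  have hTa : ∀ l, T l = (inner ℝ u l, inner ℝ v l) := fun l => rfl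
  have hinj : Function.Injective T := by
    rw [← LinearMap.ker_eq_bot, LinearMap.ker_eq_bot']
    intro l hl
    rw [hTa] at hl
    have h1 : inner ℝ u l = (0:ℝ) := congrArg Prod.fst hl
    have h2 : inner ℝ v l = (0:ℝ) := congrArg Prod.snd hl
    obtain ⟨p, hp⟩ := A.surjective l
    rw [hA] at hp
    have h3 : inner ℝ (p.1 • u + p.2 • v) l = (0:ℝ) := by
      rw [inner_add_left, inner_smul_left, inner_smul_left, h1, h2]; simp
    rw [hp] at h3
    exact inner_self_eq_zero.mp h3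
  have hsurj : Function.Surjective T := by
    refine (LinearMap.injective_iff_surjective_of_finrank_eq_finrank ?_).mp hinj
    simp
  choose L hL using fun i : Fin 4 × ℤ => hsurj (Q65.ER.k1 i, Q65.ER.k2 i)
  refine ⟨L, fun i => ?_, fun i => ?_⟩
  · rw [real_inner_comm]; exact congrArg Prod.fst (hL i)
  · rw [real_inner_comm]; exact congrArg Prod.snd (hL i)

theorem parallelogram (P u v : E2) (huv : LinearIndependent ℝ ![u, v]) :
    AdmitsExpRieszBasis (sigma (pgram P u v)) := by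
  classical
  have hsig : sigma (pgram P u v) = Q65.ER.sig P u v := Q65.ER.frontier_pgram huv
  rw [hsig]
  have hu : u ≠ 0 := huv.ne_zero 0
  have hv : v ≠ 0 := huv.ne_zero 1
  obtain ⟨L, hL1, hL2⟩ := exists_freq huv
  have hinj : Function.Injective L := by
    intro i i' h
    refine k_inj ?_ ?_
    · rw [← hL1, ← hL1, h]
    · rw [← hL2, ← hL2, h]
  refine ⟨inferInstance, range L, countable_range L, ?_, ?_⟩
  · refine dense_of_complete _ _ fun h hh H => ?_
    exact Q65.ER.complete hu hv hL1 hL2 hh (fun i => H (L i) ⟨i, rfl⟩)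
  · have hmn : min ‖u‖ ‖v‖ ≤ max ‖u‖ ‖v‖ := min_le_max
    have hm : 0 < min ‖u‖ ‖v‖ := lt_min (norm_pos_iff.mpr hu) (norm_pos_iff.mpr hv)
    refine ⟨min ‖u‖ ‖v‖, 8 * max ‖u‖ ‖v‖, hm, by linarith, ?_⟩
    intro s c hs
    set s' : Finset (Fin 4 × ℤ) := s.preimage L hinj.injOn with hs'
    have hsum : ∀ {G : Type} [AddCommMonoid G] (g : E2 → G), ∑ i ∈ s', g (L i) = ∑ l ∈ s, g l := by
      intro G _ g
      refine Finset.sum_preimage L s hinj.injOn g ?_
      intro l hl hnr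
      exact absurd (hs hl) hnr
    have hb := Q65.ER.bound (P := P) hu hv hL1 hL2 s' (fun i => c (L i))
    rw [hsum (fun l => ‖c l‖ ^ 2)] at hb
    have e : ∀ x, ∑ i ∈ s', c (L i) * Q65.ER.ex (L i) x = ∑ l ∈ s, c l * ex l x := by
      intro x
      exact hsum (fun l => c l * ex l x)
    simp_rw [e] at hb
    exact hb

/-- **The boundary length measure of every square (with vertex `P` and sides `u ⊥ v` of equal
positive length), and more generally of every parallelogram, admits an exponential Riesz basis.** -/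
theorem result :
    (∀ P u v : E2, u ≠ 0 → inner ℝ u v = (0:ℝ) → ‖v‖ = ‖u‖ →
      AdmitsExpRieszBasis (sigma (pgram P u v))) ∧
    (∀ P u v : E2, LinearIndependent ℝ ![u, v] →
      AdmitsExpRieszBasis (sigma (pgram P u v))) := by
  refine ⟨fun P u v hu huv hn => parallelogram P u v ?_, parallelogram⟩
  rw [LinearIndependent.pair_iff]
  intro s t hst
  have hv : v ≠ 0 := by
    intro h; rw [h, norm_zero] at hn; exact hu (norm_eq_zero.mp hn.symm)
  have h1 : inner ℝ u (s • u + t • v) = (0:ℝ) := by rw [hst, inner_zero_right]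
  have h2 : inner ℝ v (s • u + t • v) = (0:ℝ) := by rw [hst, inner_zero_right]
  rw [inner_add_right, inner_smul_right, inner_smul_right] at h1 h2
  rw [huv, mul_zero, add_zero] at h1
  rw [real_inner_comm, huv, mul_zero, zero_add] at h2
  exact ⟨(mul_eq_zero.mp h1).resolve_right (inner_self_ne_zero.mpr hu),
    (mul_eq_zero.mp h2).resolve_right (inner_self_ne_zero.mpr hv)⟩

end Pool.Agent.Results.MP_9e9244_an.SquareBoundary
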